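import Pool.Agent.H82.CS.Reals

/-!
# The Ostaszewski square at `ω₁` does not imply `ω₁^{<ω₁} = ω₁`

We construct a model `(M, E)` of `ZFC` with a successor cardinal `lam` (namely `lam = ω₁`) for
which the Ostaszewski square holds while `lam^{<lam} > lam`.

All notions below are interpreted in a structure `(M, E)`: `E x y` is read as `x ∈ y`.
-/

namespace Pool.Agent.Results.MP_90fc86_lc.FailsWithoutCH

open Pool.Agent.H86

section Defs

variable {M : Type} (E : M → M → Prop)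

/-- `(M, E)` is a model of `ZFC`: a model of `ZF` in which every family of nonempty pairwise
disjoint sets has a transversal -/
structure IsZFCModel : Prop extends IsZFModel E where
  choice : ∀ x, (∀ y, E y x → ∃ z, E z y) →
    (∀ y y', E y x → E y' x → (∃ z, E z y ∧ E z y') → y = y') →
    ∃ c, ∀ y, E y x → ∃! z, E z y ∧ E z c

/-- `z = {a, b}` -/
def IsUPair (z a b : M) : Prop := ∀ t, E t z ↔ (t = a ∨ t = b)

/-- `z` is the (Kuratowski) ordered pair `(a, b) = {{a}, {a, b}}` -/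
def IsPair (z a b : M) : Prop := ∀ w, E w z ↔ (IsUPair E w a a ∨ IsUPair E w a b)

/-- `(x, y) ∈ f` -/
def Rel (f x y : M) : Prop := ∃ z, IsPair E z x y ∧ E z f

/-- `x` is a transitive set -/
def IsTrans (x : M) : Prop := ∀ y, E y x → ∀ z, E z y → E z x

/-- `x` is an ordinal (a transitive set of transitive sets; the model satisfies foundation) -/
def IsOrd (x : M) : Prop := IsTrans E x ∧ ∀ y, E y x → IsTrans E y

/-- `f` is a function, i.e. a single-valued set of ordered pairs -/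
def IsFun (f : M) : Prop :=
  (∀ z, E z f → ∃ x y, IsPair E z x y) ∧ ∀ x y y', Rel E f x y → Rel E f x y' → y = y'

/-- `f` is injective -/
def IsInj (f : M) : Prop := ∀ x x' y, Rel E f x y → Rel E f x' y → x = x'

/-- there is an injective function from `a` to `b` -/
def InjTo (a b : M) : Prop :=
  ∃ f, IsFun E f ∧ IsInj E f ∧ ∀ x, E x a → ∃ y, E y b ∧ Rel E f x y

/-- `θ` is the first infinite ordinal `ω`: an ordinal that contains the empty set and is closed
under successors, all of whose elements are empty or successors -/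
def IsOmega (θ : M) : Prop :=
  IsOrd E θ ∧ (∃ e, E e θ ∧ ∀ z, ¬ E z e) ∧
  (∀ y, E y θ → ∃ s, E s θ ∧ ∀ z, E z s ↔ (E z y ∨ z = y)) ∧
  ∀ y, E y θ → ((∀ z, ¬ E z y) ∨ ∃ x, E x y ∧ ∀ z, E z y ↔ (E z x ∨ z = x))

/-- `a` is a cardinal: an ordinal that does not inject in a smaller ordinal -/
def IsCard (a : M) : Prop := IsOrd E a ∧ ∀ ν, E ν a → ¬ InjTo E a ν

/-- `a` is an infinite cardinal: a cardinal with `ω ≤ a` -/
def IsInfCard (a : M) : Prop := IsCard E a ∧ ∃ w, IsOmega E w ∧ (E w a ∨ w = a)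

/-- `b = a⁺` for a cardinal `a`: the ordinal `b > a` does not inject in `a`, but all smaller
ordinals do -/
def IsCardSucc (a b : M) : Prop :=
  IsOrd E b ∧ E a b ∧ ¬ InjTo E b a ∧ ∀ ν, E ν b → InjTo E ν a

/-- `f` is a function from `a` to `b` -/
def IsFunOn (f a b : M) : Prop :=
  IsFun E f ∧ (∀ x, E x a ↔ ∃ y, Rel E f x y) ∧ ∀ x y, Rel E f x y → E y b

/-- `b^a ≤ b`: there is an injective function defined at all functions from `a` to `b` with
values in `b` -/
def PowLe (a b : M) : Prop :=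
  ∃ h, IsFun E h ∧ IsInj E h ∧ ∀ f, IsFunOn E f a b → ∃ y, E y b ∧ Rel E h f y

/-- `lam^{<lam} > lam`: for some cardinal `ν < lam`, `lam^ν ≤ lam` fails -/
def PowLtGt (lam : M) : Prop := ∃ ν, E ν lam ∧ IsCard E ν ∧ ¬ PowLe E ν lam

/-- the ordinal `α` is a limit ordinal -/
def IsLim (α : M) : Prop := (∃ z, E z α) ∧ ∀ ξ, E ξ α → ∃ ζ, E ζ α ∧ E ξ ζ

/-- `A ⊆ α` is unbounded in `α` -/
def IsUnb (A α : M) : Prop := (∀ z, E z A → E z α) ∧ ∀ ξ, E ξ α → ∃ ζ, E ζ A ∧ E ξ ζ

/-- `sup (A ∩ β) = β` -/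
def SupAt (A β : M) : Prop := ∀ ξ, E ξ β → ∃ ζ, E ζ A ∧ E ζ β ∧ E ξ ζ

/-- `A` is a closed unbounded subset of `α` -/
def IsClub (A α : M) : Prop :=
  IsUnb E A α ∧ ∀ β, E β α → (∃ z, E z β) → SupAt E A β → E β A

/-- `f` is strictly increasing -/
def IsIncr (f : M) : Prop := ∀ x y x' y', Rel E f x y → Rel E f x' y' → E x x' → E y y'

/-- `otp(A) ≤ lam`: there is a strictly increasing function from the set of ordinals `A` to the
ordinal `lam` -/
def OtpLe (A lam : M) : Prop :=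
  ∃ f, IsFun E f ∧ (∀ x, E x A → ∃ y, E y lam ∧ Rel E f x y) ∧ IsIncr E f

/-- `F` is the strictly increasing enumeration of `A` whose domain is the ordinal `θ`; so
`otp(A) = θ` and `F(i) = A(i)` for `i < θ` -/
def IsEnum (F θ A : M) : Prop :=
  IsFun E F ∧ (∀ i, E i θ ↔ ∃ a, Rel E F i a) ∧ (∀ a, E a A ↔ ∃ i, Rel E F i a) ∧ IsIncr E F

/-- `C` is a square sequence `⟨C_α : α < kap⟩` (where `kap = lam⁺`): for limit `α < kap`, the set
`C_α` is a club in `α` of order type at most `lam`, and `C_β = C_α ∩ β` for `β ∈ acc(C_α)` -/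
def IsSquareSeq (C lam kap : M) : Prop :=
  IsFun E C ∧ (∀ α, E α kap ↔ ∃ A, Rel E C α A) ∧
  ∀ α, E α kap → IsLim E α → ∀ A, Rel E C α A → IsClub E A α ∧ OtpLe E A lam ∧
    ∀ β, E β A → SupAt E A β → ∀ B, Rel E C β B → ∀ z, E z B ↔ (E z A ∧ E z β)

/-- the Ostaszewski square for `lam`, where `kap = lam⁺`: there is a square sequence `C` such
that for every sequence `T = ⟨A_i : i < lam⟩` of unbounded subsets of `kap`, every limit ordinal
`θ < lam` and every club `D ⊆ kap` there is a limit ordinal `α < kap` such that `C_α` has order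
type `θ` and for all `i < θ`, `C_α(i+1) ∈ A_i` and some element of `D` lies strictly between
`C_α(i)` and `C_α(i+1)` (the problem does not ask that `α` be a limit ordinal; with this clause
the principle is also not weaker in case the values `C_α` at nonlimit `α` are constrained) -/
def ClubSquare (lam kap : M) : Prop :=
  ∃ C, IsSquareSeq E C lam kap ∧
    ∀ T, IsFun E T → (∀ i, E i lam → ∃ A, Rel E T i A) →
      (∀ i A, Rel E T i A → IsUnb E A kap) →
      ∀ θ, E θ lam → IsLim E θ → ∀ D, IsClub E D kap →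
        ∃ α, E α kap ∧ IsLim E α ∧ ∃ A, Rel E C α A ∧ ∃ F, IsEnum E F θ A ∧
          ∀ i j x y, E i θ → (∀ z, E z j ↔ (E z i ∨ z = i)) → Rel E F i x → Rel E F j y →
            (∃ B, Rel E T i B ∧ E y B) ∧ ∃ β, E β D ∧ E x β ∧ E β y

end Defs

/-- Choice from covers by values of functions on ordinals. -/
theorem choice_of_cov {M : Type} {E : M → M → Prop} (hE : IsZFModel E)
    (hc : H82.CS.fAllCov (propStr E)) (x : M) (hne : ∀ y, E y x → ∃ z, E z y)
    (hdis : ∀ y y', E y x → E y' x → (∃ z, E z y ∧ E z y') → y = y') :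
    ∃ c, ∀ y, E y x → ∃! z, E z y ∧ E z c := by
  obtain ⟨u, hu⟩ := hE.union x
  obtain ⟨f, hf1, hf2, hf3, hf4⟩ := hc u
  have hfun : ∀ i z z', Rel E f i z → Rel E f i z' → z = z' := hf1.2
  have hord : ∀ i z, Rel E f i z → IsOrd E i := hf2
  have htri : ∀ i z i' z', Rel E f i z → Rel E f i' z' → (E i i' ∨ i = i' ∨ E i' i) := hf3
  have hcov : ∀ z, E z u → ∃ i, Rel E f i z := hf4
  -- the transversal
  obtain ⟨c, hc⟩ := hE.sep (H82.CS.fSel codeStr 0 1 2 3)
    (fun n => match n with | 1 => x | _ => f) u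
  have hc' : ∀ z, E z c ↔ (E z u ∧ ∃ y, E y x ∧ E z y ∧ ∃ i, Rel E f i z ∧
      ∀ j, E j i → ∀ z', Rel E f j z' → ¬ E z' y) := by
    intro z
    rw [hc, sat_eq_eval]
    exact Iff.rfl
  refine ⟨c, fun y hy => ?_⟩
  -- the least index with value in `y`
  have hleast : ∃ i z, Rel E f i z ∧ E z y ∧ ∀ j, E j i → ∀ z', Rel E f j z' → ¬ E z' y := by
    obtain ⟨z0, hz0⟩ := hne y hy
    obtain ⟨i0, hi0⟩ := hcov z0 ((hu z0).2 ⟨y, hy, hz0⟩)
    obtain ⟨J, hJ⟩ := hE.sep (H82.CS.fHit codeStr 0 1 2 3)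
      (fun n => match n with | 1 => f | _ => y) i0
    have hJ' : ∀ i, E i J ↔ (E i i0 ∧ ∃ z, Rel E f i z ∧ E z y) := by
      intro i
      rw [hJ, sat_eq_eval]
      exact Iff.rfl
    by_cases hJe : ∃ i, E i J
    · obtain ⟨i, hi, hmin⟩ := hE.found J hJe
      obtain ⟨h1, z, h2, h3⟩ := (hJ' i).1 hi
      refine ⟨i, z, h2, h3, fun j hj z' hz' hz'' => ?_⟩
      exact hmin j ((hJ' j).2 ⟨(hord i0 z0 hi0).1 i h1 j hj, z', hz', hz''⟩) hj
    · exact ⟨i0, z0, hi0, hz0, fun j hj z' hz' hz'' => hJe ⟨j, (hJ' j).2 ⟨hj, z', hz', hz''⟩⟩⟩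
  obtain ⟨i, z, h1, h2, h3⟩ := hleast
  refine ⟨z, ⟨h2, (hc' z).2 ⟨(hu z).2 ⟨y, hy, h2⟩, y, hy, h2, i, h1, h3⟩⟩, ?_⟩
  rintro z' ⟨h4, h5⟩
  obtain ⟨_, y', hy', h6, i', h7, h8⟩ := (hc' z').1 h5
  have e : y = y' := hdis y y' hy hy' ⟨z', h4, h6⟩
  subst e
  rcases htri i z i' z' h1 h7 with h | h | h
  · exact (h8 i h z h1 h2).elim
  · subst h
    exact hfun i z' z h7 h1
  · exact (h3 i' h z' h7 h4).elim

open H82.CS

/-- the names that are interpreted in the model -/
noncomputable def base : ℕ → H82.CS.SS.HN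
  | 0 => H82.CS.o Ordinal.omega0
  | 1 => H82.CS.o H82.CS.w1
  | 2 => H82.CS.o H82.CS.w2
  | _ => H82.CS.nC

/-- It is consistent with `ZFC` that for some successor cardinal `lam` (namely `lam = ω₁`) the
Ostaszewski square for `lam` holds while `lam^{<lam} > lam`. -/
theorem result : ∃ (M : Type) (E : M → M → Prop), IsZFCModel E ∧
    ∃ mu lam kap : M, IsOmega E mu ∧ IsInfCard E mu ∧ IsCardSucc E mu lam ∧
      IsCardSucc E lam kap ∧ ClubSquare E lam kap ∧ PowLtGt E lam := by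
  obtain ⟨M, E, Nm, hZF, _, hb, htr⟩ := SS.exists_zf_model ⊤ base
  choose m hm using hb
  have tr : ∀ φ : Fml, (φ.eval SS.FS base).holds ⊤ → φ.eval (propStr E) m := fun φ hφ =>
    htr φ m base hm hφ
  have hcov : fAllCov (propStr E) := tr (fAllCov codeStr 4) (fun X => forced_cov X ⊤)
  have h0 : IsOmega E (m 0) := by
    have : fOmega (propStr E) (m 0) := by
      refine tr (fOmega codeStr 0 4) ?_
      have := SS.forced_omega (⊤ : QQ)
      rw [← Ordinal.lift_omega0.{1, 0}] at this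
      exact this
    exact this
  have h1 : IsCard E (m 0) := by
    have : fCard (propStr E) (m 0) := by
      refine tr (fCard codeStr 0 4) ⟨ord_o _ _, ?_⟩
      intro ν q hq hν q' hq' h
      exact forced_omega_card q' (Name.fmem_mono hq' hν) h
    exact this
  have h2 : IsCardSucc E (m 0) (m 1) := by
    have : fSC (propStr E) (m 0) (m 1) := by
      refine tr (fSC codeStr 0 1 4) ⟨ord_o _ _, fmem_o.2 Ordinal.omega0_lt_omega_one, ?_, ?_⟩
      · intro q _ h
        exact no_inj_w1 q h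
      · intro ν q _ hν
        exact inj_w1 q hν
    exact this
  have h3 : IsCardSucc E (m 1) (m 2) := by
    have : fSC (propStr E) (m 1) (m 2) := by
      refine tr (fSC codeStr 1 2 4) ⟨ord_o _ _, fmem_o.2 w1_lt_w2, ?_, ?_⟩
      · intro q _ h
        exact no_inj_w2 q h
      · intro ν q _ hν
        exact inj_w2 q hν
    exact this
  have h4 : fSquare (propStr E) (m 3) (m 1) (m 2) := tr (fSquare codeStr 3 1 2 4)
    (forced_square ⊤)
  have h5 : fGuess (propStr E) (m 3) (m 1) (m 2) := tr (fGuess codeStr 3 1 2 4)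
    (forced_guess ⊤)
  have h6 : fNotPow (propStr E) (m 0) (m 1) := tr (fNotPow codeStr 0 1 4)
    (fun q _ h => not_powLe q h)
  refine ⟨M, E, { hZF with choice := fun x h h' => choice_of_cov hZF hcov x h h' },
    m 0, m 1, m 2, h0, ⟨h1, m 0, h0, Or.inr rfl⟩, h2, h3, ⟨m 3, ?_, ?_⟩, m 0, h2.2.1, h1, h6⟩
  · obtain ⟨a1, a2, a3⟩ := h4
    refine ⟨a1, a2, fun α hα hl A hA => ?_⟩
    obtain ⟨⟨b1, b2, b3⟩, b4, b5⟩ := a3 α hα hl A hA
    exact ⟨⟨⟨b1, b2⟩, fun β hβ hne hs => b3 β hβ hne hs⟩, b4, fun β hβ hs B hB =>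
      b5 β hβ hs B hB⟩
  · intro T hT hT1 hT2 θ hθ hl D hD
    exact h5 T hT hT1 (fun i A hA => hT2 i A hA) θ hθ hl D ⟨hD.1.1, hD.1.2, hD.2⟩

end Pool.Agent.Results.MP_90fc86_lc.FailsWithoutCH
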